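import Pool.Agent.H7.GV.Stmts

/-!
Board gv9 (MP_fd41b2_co), row NDB9, helper86: what is owed is less than the loss at the edge.
-/

set_option autoImplicit false

open Finset

namespace Pool.GV7

open Pool.Agent.H23.KT Pool.Agent.H46.KW Pool.KQ Pool.GT7 Pool.GU7

/-- The summation over the cliques. -/
theorem NDB9_sum {ι : Type} (S : Finset ι) (B : ι → ℕ) (p w : ℕ) (u : ℕ → ℝ)
    (c1 s0 A ε M : ℝ) (hB : ∀ L ∈ S, B L ≤ p + 2) (hu1 : u (p + 2) = 1)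
    (hc1 : c1 = ((p + 2).choose (w + 1) : ℝ)) (hs0 : 0 ≤ s0)
    (h3 : ∀ B ≤ p + 1, ((w : ℝ) + 3) * B.choose (w + 1) + s0 ≤ c1 * (1 + ((w : ℝ) + 2) * u B))
    (hN : (1 - ε) * A ≤ S.card) (hM : ∑ L ∈ S, (B L : ℝ) ≤ M * A + ε * A)
    (hMb : M ≤ 2 / 3 * ((p : ℝ) + 2)) (hε0 : 0 ≤ ε) (hε : ε ≤ 1 / 18) (hA : 0 ≤ A) :
    ((w : ℝ) + 3) * ∑ L ∈ S, ((B L).choose (w + 1) : ℝ) + s0 / 4 * A ≤
      c1 * S.card + ((w : ℝ) + 2) * c1 * ∑ L ∈ S, u (B L) := by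
  have hp0 : (0 : ℝ) ≤ p := Nat.cast_nonneg p
  have hpt : ∀ L ∈ S, ((w : ℝ) + 3) * ((B L).choose (w + 1) : ℝ) +
      (if B L ≤ p + 1 then s0 else 0) ≤ c1 + ((w : ℝ) + 2) * c1 * u (B L) := by
    intro L hL
    by_cases h : B L ≤ p + 1
    · rw [if_pos h]
      have := h3 _ h
      linarith
    · have hb : B L = p + 2 := by have := hB L hL; omega
      rw [if_neg h, hb, hu1, ← hc1]
      linarith
  have h1 := sum_le_sum hpt
  rw [sum_add_distrib, sum_add_distrib, ← mul_sum, ← mul_sum, sum_const, nsmul_eq_mul,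
    ← sum_filter, sum_const, nsmul_eq_mul] at h1
  have h2 : ((p : ℝ) + 2) * ((S.filter (fun L => ¬ B L ≤ p + 1)).card : ℝ) ≤
      ∑ L ∈ S, (B L : ℝ) := by
    have e1 : ((p : ℝ) + 2) * ((S.filter (fun L => ¬ B L ≤ p + 1)).card : ℝ) =
        ∑ L ∈ S.filter (fun L => ¬ B L ≤ p + 1), ((p : ℝ) + 2) := by
      rw [sum_const, nsmul_eq_mul]; ring
    rw [e1]
    calc ∑ L ∈ S.filter (fun L => ¬ B L ≤ p + 1), ((p : ℝ) + 2)
        ≤ ∑ L ∈ S.filter (fun L => ¬ B L ≤ p + 1), (B L : ℝ) := by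
          refine sum_le_sum fun L hL => ?_
          have h := (mem_filter.1 hL).2
          have h' : p + 2 ≤ B L := by omega
          exact_mod_cast h'
      _ ≤ ∑ L ∈ S, (B L : ℝ) :=
          sum_le_sum_of_subset_of_nonneg (filter_subset _ _) fun _ _ _ => Nat.cast_nonneg _
  have h4 : ((S.filter (fun L => B L ≤ p + 1)).card : ℝ) +
      ((S.filter (fun L => ¬ B L ≤ p + 1)).card : ℝ) = S.card := by
    exact_mod_cast card_filter_add_card_filter_not (s := S) (fun L => B L ≤ p + 1)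
  have h5 : ((S.filter (fun L => ¬ B L ≤ p + 1)).card : ℝ) ≤ (2 / 3 + ε / 2) * A := by
    have hx : ((p : ℝ) + 2) * ((S.filter (fun L => ¬ B L ≤ p + 1)).card : ℝ) ≤
        ((p : ℝ) + 2) * ((2 / 3 + ε / 2) * A) := by
      calc ((p : ℝ) + 2) * ((S.filter (fun L => ¬ B L ≤ p + 1)).card : ℝ)
          ≤ M * A + ε * A := h2.trans hM
        _ ≤ (2 / 3 * ((p : ℝ) + 2)) * A + ε * A := by
            have := mul_le_mul_of_nonneg_right hMb hA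
            linarith
        _ ≤ ((p : ℝ) + 2) * ((2 / 3 + ε / 2) * A) := by
            have := mul_nonneg (mul_nonneg hp0 hε0) hA
            nlinarith
    exact le_of_mul_le_mul_left hx (by linarith)
  have h6 : 1 / 4 * A ≤ ((S.filter (fun L => B L ≤ p + 1)).card : ℝ) := by
    have : ε * A ≤ 1 / 18 * A := mul_le_mul_of_nonneg_right hε hA
    linarith
  have h7 := mul_le_mul_of_nonneg_left h6 hs0
  linarith

theorem NDB9_thm (hGC : GC9Stmt) (hPRF : PRFStmt) (hCCK : CCK0Stmt) (hGCO : GCO0Stmt) :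
    NDB9Stmt := by
  intro p w r hP
  obtain ⟨hP0, -, -, -, h3, -⟩ := hGC p w r hP
  obtain ⟨g1, g2, -, -⟩ := hGCO p w r hP0
  have hp0 : (0 : ℝ) ≤ p := Nat.cast_nonneg p
  have hw0 : (0 : ℝ) ≤ w := Nat.cast_nonneg w
  obtain ⟨c1, hc1⟩ : ∃ c1 : ℝ, c1 = ((p + 2).choose (w + 1) : ℝ) := ⟨_, rfl⟩
  have hc11 : 1 ≤ c1 := by
    rw [hc1]
    have : 0 < (p + 2).choose (w + 1) := Nat.choose_pos (by have := hP.wp; omega)
    exact_mod_cast this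
  obtain ⟨s0, hs0⟩ : ∃ s0 : ℝ, s0 = 1 / (4 * ((p : ℝ) + 3) ^ 2) := ⟨_, rfl⟩
  have hs0p : 0 < s0 := by rw [hs0]; positivity
  obtain ⟨ε, hε0, hε1, hε2⟩ : ∃ ε : ℝ, 0 < ε ∧ ε ≤ 1 / 18 ∧
      ε * (c1 + w + 3) ≤ s0 / 16 := by
    refine ⟨min (1 / 18) (s0 / 16 / (c1 + w + 3)), ?_, min_le_left _ _, ?_⟩
    · exact lt_min (by norm_num) (by positivity)
    · have hpos : 0 < c1 + w + 3 := by linarith
      rw [← le_div_iff₀ hpos]
      exact min_le_right _ _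
  obtain ⟨e₀, he₀, hPR⟩ := hPRF p ε hε0
  have hE0 : 0 < e1 p := by unfold e1; positivity
  have hE1 : e1 p ≤ 1 := by
    unfold e1
    rw [div_le_one (by positivity)]
    nlinarith [one_le_pow₀ (by linarith : (1 : ℝ) ≤ (p : ℝ) + 3) (n := 3)]
  refine ⟨min e₀ (e1 p / 2), lt_min he₀ (by linarith), ?_⟩
  intro C
  obtain ⟨a₀, hPR⟩ := hPR C
  refine ⟨a₀ + 1, ?_⟩
  intro a ha V _ G e W P U hS he0 he hcb z hz hdeg hnd
  have ha0 : (0 : ℝ) < a := by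
    have : 0 < a := by omega
    exact_mod_cast this
  obtain ⟨q1, q2, -, q4, -, q6, -⟩ := hPR a (by omega) G e W P U hS he0
    (he.trans (min_le_left _ _)) hcb z hz
  obtain ⟨k1, -, -, -⟩ := hCCK G p w r a e C W P U hP0 hS he0 (he.trans (min_le_right _ _)) hcb z hz
  obtain ⟨S, hSdef⟩ : ∃ S, S = clq G (un P) (p + 3) := ⟨_, rfl⟩
  have hkS : (kc G (un P) (p + 3) : ℝ) = S.card := by rw [kc_eq, hSdef]
  obtain ⟨A, hA⟩ : ∃ A : ℝ, A = (a : ℝ) ^ (p + 3) := ⟨_, rfl⟩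
  have hA0 : 0 < A := by rw [hA]; positivity
  obtain ⟨n, hn⟩ : ∃ n : ℝ, n = ((nb G (un P) z).card : ℝ) := ⟨_, rfl⟩
  rw [hkS, ← hA] at q1 q2
  rw [← hSdef, ← hA, ← hn] at q4
  have q6' := q6 (w + 1) (by have := hP.wp; omega)
  rw [← hSdef, ← hA] at q6'
  rw [← hSdef] at k1
  rw [← hn] at hdeg
  -- `n a^(p+2) ≤ m9 A`
  have hn' : n * (a : ℝ) ^ (p + 2) ≤ m9 p * A := by
    calc n * (a : ℝ) ^ (p + 2) ≤ (m9 p * a) * (a : ℝ) ^ (p + 2) :=
          mul_le_mul_of_nonneg_right hdeg (by positivity)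
      _ = m9 p * A := by rw [hA]; ring
  have hm9 : m9 p ≤ 2 / 3 * ((p : ℝ) + 2) := by unfold m9; linarith
  have hsum := NDB9_sum S (fun L => (nb G L z).card) p w (ww p r) c1 s0 A ε (m9 p) k1 g2 hc1
    hs0p.le (fun B hB => by rw [hs0, hc1]; exact h3 B hB) q1 (by linarith) hm9 hε0.le hε1 hA0.le
  have hTZ : TZ G p r (un P) z = ∑ L ∈ S, ww p r (nb G L z).card := by
    unfold TZ; rw [hSdef]
  obtain ⟨T, hT⟩ : ∃ T : ℝ, T = ∑ L ∈ S, ww p r (nb G L z).card := ⟨_, rfl⟩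
  rw [← hT] at hsum hTZ
  have hTN : T ≤ 2 * A := by
    have h : T ≤ S.card := by
      rw [hT]
      calc ∑ L ∈ S, ww p r (nb G L z).card ≤ ∑ _L ∈ S, (1 : ℝ) :=
            sum_le_sum fun L hL => (g1 _ (k1 L hL)).2.1
        _ = S.card := by simp
    have h2 : ε * A ≤ 1 / 18 * A := mul_le_mul_of_nonneg_right hε1 hA0.le
    linarith
  -- `nd`
  have hnd' : nd G p w r a (un P) z = (kc G (nb G (un P) z) (w + 1) : ℝ) -
      (1 - et p w) * (c1 * (a : ℝ) ^ (w + 1) / A) * T := by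
    unfold nd at hnd ⊢
    rw [← hTZ, hc1, hA]
    exact max_eq_right ((lt_max_iff.1 hnd).resolve_left (lt_irrefl _)).le
  obtain ⟨κ, hκ⟩ : ∃ κ : ℝ, κ = (kc G (nb G (un P) z) (w + 1) : ℝ) := ⟨_, rfl⟩
  rw [← hκ] at hnd' q6' ⊢
  obtain ⟨Q, hQ⟩ : ∃ Q : ℝ, Q = (a : ℝ) ^ (p + 3 - (w + 1)) := ⟨_, rfl⟩
  have hQ0 : 0 < Q := by rw [hQ]; positivity
  have hQA : (a : ℝ) ^ (w + 1) * Q = A := by
    rw [hQ, hA, ← pow_add]
    congr 1
    have := hP.wp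
    omega
  rw [← hQ] at q6'
  rw [← hc1, hnd']
  have het : ((w : ℝ) + 2) * et p w * c1 * (2 * A) ≤ s0 / 16 * A := by
    have h1 : ((w : ℝ) + 2) * et p w * c1 = e1 p / (256 * ((p : ℝ) + 3) ^ 3) := by
      unfold et
      rw [← hc1]
      have : c1 ≠ 0 := by linarith
      field_simp
    rw [h1, hs0]
    have h2 : e1 p / (256 * ((p : ℝ) + 3) ^ 3) * 2 ≤ 1 / (4 * ((p : ℝ) + 3) ^ 2) / 16 := by
      rw [div_div, div_mul_eq_mul_div, div_le_div_iff₀ (by positivity) (by positivity)]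
      have hb : ((p : ℝ) + 3) ^ 2 ≤ ((p : ℝ) + 3) ^ 3 := pow_le_pow_right₀ (by linarith) (by norm_num)
      have hb0 : 0 ≤ ((p : ℝ) + 3) ^ 2 := by positivity
      nlinarith
    calc e1 p / (256 * ((p : ℝ) + 3) ^ 3) * (2 * A)
        = e1 p / (256 * ((p : ℝ) + 3) ^ 3) * 2 * A := by ring
      _ ≤ _ := mul_le_mul_of_nonneg_right h2 hA0.le
  have het0 : 0 ≤ ((w : ℝ) + 2) * et p w * c1 := by
    unfold et; positivity
  have het2 : ((w : ℝ) + 2) * et p w * c1 * T ≤ ((w : ℝ) + 2) * et p w * c1 * (2 * A) :=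
    mul_le_mul_of_nonneg_left hTN het0
  have hfin : (((w : ℝ) + 2) * (κ - (1 - et p w) * (c1 * (a : ℝ) ^ (w + 1) / A) * T) + κ) * Q ≤
      ((c1 - 1 / (32 * ((p : ℝ) + 3) ^ 2)) * (a : ℝ) ^ (w + 1)) * Q := by
    have e1' : (((w : ℝ) + 2) * (κ - (1 - et p w) * (c1 * (a : ℝ) ^ (w + 1) / A) * T) + κ) * Q =
        ((w : ℝ) + 3) * (κ * Q) - ((w : ℝ) + 2) * c1 * T + ((w : ℝ) + 2) * et p w * c1 * T := by
      have hx : (a : ℝ) ^ (w + 1) / A * Q = 1 := by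
        rw [div_mul_eq_mul_div, hQA, div_self hA0.ne']
      calc (((w : ℝ) + 2) * (κ - (1 - et p w) * (c1 * (a : ℝ) ^ (w + 1) / A) * T) + κ) * Q
          = ((w : ℝ) + 3) * (κ * Q) -
            ((w : ℝ) + 2) * (1 - et p w) * c1 * T * ((a : ℝ) ^ (w + 1) / A * Q) := by ring
        _ = _ := by rw [hx]; ring
    have e2 : ((c1 - 1 / (32 * ((p : ℝ) + 3) ^ 2)) * (a : ℝ) ^ (w + 1)) * Q =
        (c1 - s0 / 8) * A := by
      rw [← hQA, hs0]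
      have : 1 / (4 * ((p : ℝ) + 3) ^ 2) / 8 = 1 / (32 * ((p : ℝ) + 3) ^ 2) := by
        rw [div_div]; congr 1; ring
      rw [this]; ring
    rw [e1', e2]
    have e3 : ((w : ℝ) + 3) * (κ * Q) ≤
        ((w : ℝ) + 3) * (∑ L ∈ S, (((nb G L z).card.choose (w + 1) : ℕ) : ℝ) + ε * A) :=
      mul_le_mul_of_nonneg_left q6' (by linarith)
    have e4 : c1 * (S.card : ℝ) ≤ c1 * ((1 + ε) * A) :=
      mul_le_mul_of_nonneg_left q2 (by linarith)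
    have e5 : (ε * (c1 + w + 3)) * A ≤ s0 / 16 * A := mul_le_mul_of_nonneg_right hε2 hA0.le
    nlinarith [e3, e4, e5, hsum, het, het2]
  exact le_of_mul_le_mul_right hfin hQ0

end Pool.GV7
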