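import Pool.Agent.H7.GV.Stmts
import Pool.Agent.H46.GU.SUM8

/-!
Board gv9 (MP_fd41b2_co), row SUM9, helper86: the inequality summed over all vertices (copy of
helper46's row SUM8 of the board gu8).
-/

set_option autoImplicit false

open Finset

namespace Pool.GV7

open Pool.Agent.H23.KT Pool.Agent.H46.KW Pool.KQ Pool.GT7 Pool.GU7

theorem SUM9_thm (hPHB : PHBStmt) (hBUD : BUD9Stmt) (hLIP : LIP9Stmt) (hGGP : GGP9Stmt)
    (hPAY : PAY9Stmt) (hSTC : STCStmt) (hMMC : MMCStmt) (hCCK : CCK0Stmt) (hTTR : TTRStmt) :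
    SUM9Stmt := by
  intro p w r hP
  have hrp : r ≤ p := by have := hP.rb; have := hP.r2; omega
  have hP0 : Pr0 p w r := ⟨hP.wp, by have := hP.r2; omega, hrp⟩
  obtain ⟨C₀, hC₀, h1⟩ := hPHB p w r hP0
  obtain ⟨C₂, hC₂, eB, heB, heB1, h2⟩ := hBUD p w r hP C₀ hC₀
  obtain ⟨eL, heL, h3⟩ := hLIP p w r hP
  obtain ⟨eG, heG, heG1, h4⟩ := hGGP p w r hP
  obtain ⟨C, hC, h5⟩ := hSTC p w hP.wp C₂
  obtain ⟨C₁, a6, h6⟩ := hMMC p w hP.wp C₂
  have hE0 : 0 < e1 p := by unfold e1; positivity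
  obtain ⟨e, he0, heB', heL', heG', hee, heh⟩ : ∃ e : ℝ, 0 < e ∧ e ≤ eB ∧ e ≤ eL ∧ e ≤ eG ∧
      e ≤ e1 p / 2 ∧ e ≤ 1 / 2 := by
    refine ⟨min (min eB eL) (min eG (min (e1 p / 2) (1 / 2))), ?_, ?_, ?_, ?_, ?_, ?_⟩
    · refine lt_min (lt_min heB heL) (lt_min heG (lt_min (by linarith) (by norm_num)))
    · exact (min_le_left _ _).trans (min_le_left _ _)
    · exact (min_le_left _ _).trans (min_le_right _ _)
    · exact (min_le_right _ _).trans (min_le_left _ _)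
    · exact (min_le_right _ _).trans ((min_le_right _ _).trans (min_le_left _ _))
    · exact (min_le_right _ _).trans ((min_le_right _ _).trans (min_le_right _ _))
  obtain ⟨a2, h2⟩ := h2 C
  obtain ⟨a3, h3⟩ := h3 e he0 heL' C hC
  obtain ⟨a4, h4⟩ := h4 C C₁
  obtain ⟨a5, h5⟩ := h5 e he0 heh
  obtain ⟨a7, h7⟩ := hPAY p w r hP C hC
  refine ⟨a2 + a3 + a4 + a5 + a6 + a7 + 1, ?_⟩
  intro a ha V _ _ G hG
  have hcb : ∀ v, CB G (nb G univ v) (p + 3) := fun v => hG.cb.nb (mem_univ v)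
  have hdeg : ∀ v, (nb G univ v).card ≤ (p + 3) * a + r := hG.deg
  have hdeg' : ∀ v, (nb G univ v).card ≤ (p + 3) * (a + 1) := by
    intro v
    have h := hdeg v
    have : (p + 3) * (a + 1) = (p + 3) * a + (p + 3) := by ring
    omega
  set Gd : Finset V := univ.filter
    (fun v => df G p w r a (nb G univ v) < C₂ * (a : ℝ) ^ (w + 1)) with hGd
  have hgd : ∀ v ∈ Gd, df G p w r a (nb G univ v) < C₂ * (a : ℝ) ^ (w + 1) := by
    intro v hv
    exact (mem_filter.1 hv).2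
  have hngd : ∀ v, v ∉ Gd → C₂ * (a : ℝ) ^ (w + 1) ≤ df G p w r a (nb G univ v) := by
    intro v hv
    by_contra hcon
    rw [not_le] at hcon
    exact hv (mem_filter.2 ⟨mem_univ v, hcon⟩)
  have hkc : ∀ v ∈ Gd, ((p + 3).choose (w + 2) : ℝ) * (a : ℝ) ^ (w + 2) ≤
      kc G (nb G univ v) (w + 2) + C₂ * (a : ℝ) ^ (w + 1) := by
    intro v hv
    have h := hgd v hv
    have ht := (hTTR.2.2.1 (p + 3) (w + 2) a r (by omega)).1
    have ht' : ((p + 3).choose (w + 2) : ℝ) * (a : ℝ) ^ (w + 2) ≤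
        (TT (p + 3) (w + 2) a r : ℝ) := by exact_mod_cast ht
    unfold df at h
    linarith
  have hstr : ∀ v, v ∈ Gd → ∃ (P : Fin (p + 3) → Finset V) (U : Finset V),
      Str G p a e C (nb G univ v) P U := by
    intro v hv
    exact h5 a (by omega) G (nb G univ v) (hcb v) (hdeg' v) (hkc v hv)
  choose! P U hS using hstr
  have hsub : ∀ v ∈ Gd, un (P v) ⊆ nb G univ v := by
    intro v hv x hx
    rw [(hS v hv).cov x]
    right
    unfold un at hx
    rw [mem_biUnion] at hx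
    obtain ⟨i, -, hi⟩ := hx
    exact ⟨i, hi⟩
  have hUsub : ∀ v ∈ Gd, ∀ z ∈ U v, G.Adj v z := by
    intro v hv z hz
    have : z ∈ nb G univ v := ((hS v hv).cov z).2 (Or.inl hz)
    exact ((mem_nb G).1 this).2
  refine SUM8_sum Gd U (fun v => Ph G p w r a (nb G univ v)) (fun v => df G p w r a (nb G univ v))
    (fun v => (2 * ((p + 1).choose (w + 1) : ℝ) - 1) * ((U v).card.choose 2 : ℝ) * (a : ℝ) ^ w)
    (fun v z => nd G p w r a (un (P v)) z) ?_ ?_ ?_
  · intro v hv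
    exact h3 a (by omega) G (nb G univ v) (P v) (U v) (hS v hv) (hcb v) (hdeg v)
  · refine h7 a (by omega) G Gd P U (fun v hv => ⟨hsub v hv, (hS v hv).cU⟩) ?_ ?_
    · intro v hv z hz
      obtain ⟨-, -, -, hT⟩ := hCCK G p w r a e C (nb G univ v) (P v) (U v) hP0 (hS v hv) he0.le hee
        (hcb v) z hz
      have x1 : (0 : ℝ) ≤ cc G p (un (P v)) (p + 2) z := Nat.cast_nonneg _
      have x2 : (0 : ℝ) ≤ cc G p (un (P v)) (p + 1) z := Nat.cast_nonneg _
      linarith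
    · intro v hv z hz hzU
      exact h4 a (by omega) G hG e he0.le heG' v z (P v) (P z) (U v) (U z) (hS v hv) (hS z hz) hzU
        (h6 a (by omega) G (nb G univ z) (hcb z) (hdeg' z) (hkc z hz))
  · intro z hz
    have hb := h2 a (by omega) G hG e he0.le heB' z (Gd.filter (fun v => z ∈ U v)) P U
      (by
        intro v hv
        obtain ⟨hv1, hv2⟩ := mem_filter.1 hv
        exact (mem_nb G).2 ⟨mem_univ v, (hUsub v hv1 z hv2).symm⟩)
      (by
        intro v hv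
        obtain ⟨hv1, hv2⟩ := mem_filter.1 hv
        exact ⟨hS v hv1, hv2⟩)
      (hngd z hz)
    have hph := h1 a (by omega) G (nb G univ z) (hcb z) (hdeg z)
    show _ ≤ df G p w r a (nb G univ z) - Ph G p w r a (nb G univ z)
    linarith

end Pool.GV7
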